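import Pool.Agent.Helper77.CX.Ecc

/-!
# Sets in convex position: differences, lines; separated eccentricity classes
-/

set_option autoImplicit false
open scoped Classical Pointwise

namespace Pool.Agent.Helper77.CX

open Pool.Agent.Helper85.LowMult

/-- convex position -/
def Cvx (C : Finset E2) : Prop := ∀ x ∈ C, x ∉ convexHull ℝ ((C : Set E2) \ {x})

lemma exists3 {α : Type*} (T : Finset α) (f : α → ℝ) (hf : Set.InjOn f T) (h3 : 3 ≤ T.card) :
    ∃ a ∈ T, ∃ b ∈ T, ∃ c ∈ T, f a < f b ∧ f b < f c := by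
  have hT : T.Nonempty := by rw [← Finset.card_pos]; omega
  obtain ⟨a, ha, hamin⟩ := Finset.exists_min_image T f hT
  obtain ⟨c, hc, hcmax⟩ := Finset.exists_max_image T f hT
  have h1 : 0 < ((T.erase a).erase c).card := by
    have h2 := Finset.card_erase_of_mem ha
    have h3 := Finset.pred_card_le_card_erase (s := T.erase a) (a := c)
    omega
  obtain ⟨b, hb⟩ := Finset.card_pos.mp h1
  rw [Finset.mem_erase, Finset.mem_erase] at hb
  obtain ⟨hbc, hba, hbT⟩ := hb
  refine ⟨a, ha, b, hbT, c, hc, ?_, ?_⟩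
  · exact lt_of_le_of_ne (hamin b hbT) (fun h => hba (hf hbT ha h.symm))
  · exact lt_of_le_of_ne (hcmax b hbT) (fun h => hbc (hf hbT hc h))

/-- a convex combination of three points -/
lemma mem_hull3 {S : Set E2} {a b c x : E2} (ha : a ∈ S) (hb : b ∈ S) (hc : c ∈ S)
    {α β γ : ℝ} (hα : 0 ≤ α) (hβ : 0 ≤ β) (hγ : 0 ≤ γ) (hs : α + β + γ = 1)
    (h0 : x 0 = α * a 0 + β * b 0 + γ * c 0) (h1 : x 1 = α * a 1 + β * b 1 + γ * c 1) :
    x ∈ convexHull ℝ S := by
  have hx : x = α • a + β • b + γ • c := by
    apply ext77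
    · simp [h0]
    · simp [h1]
  have hconv := convex_convexHull ℝ S
  have ha' := subset_convexHull ℝ S ha
  have hb' := subset_convexHull ℝ S hb
  have hc' := subset_convexHull ℝ S hc
  rw [hx]
  rcases hγ.eq_or_lt with hγ0 | hγ0
  · rw [← hγ0, zero_smul, add_zero]
    exact hconv ha' hb' hα hβ (by linarith)
  · rcases eq_or_lt_of_le (add_nonneg hα hβ) with hab | hab
    · have h1 : α = 0 := by linarith
      have h2 : β = 0 := by linarith
      have h3 : γ = 1 := by linarith
      rw [h1, h2, h3]
      simpa using hc'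
    · have h1 : (α / (α + β)) • a + (β / (α + β)) • b ∈ convexHull ℝ S := by
        apply hconv ha' hb' (by positivity) (by positivity)
        field_simp
      have h2 := hconv h1 hc' hab.le hγ hs
      have h3 : (α + β) • ((α / (α + β)) • a + (β / (α + β)) • b) + γ • c = α • a + β • b + γ • c := by
        rw [smul_add, smul_smul, smul_smul, mul_div_cancel₀ _ hab.ne', mul_div_cancel₀ _ hab.ne']
      rw [h3] at h2
      exact h2

/-- at most two points of a set in convex position on a line -/
lemma line2 {C : Finset E2} (hC : Cvx C) {α β : ℝ} (hαβ : 0 < α ^ 2 + β ^ 2) (γ : ℝ) :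
    (C.filter (fun x => α * x 0 + β * x 1 = γ)).card ≤ 2 := by
  by_contra hcon
  push Not at hcon
  have hinj : Set.InjOn (fun x : E2 => β * x 0 - α * x 1)
      (C.filter (fun x => α * x 0 + β * x 1 = γ) : Set E2) := by
    intro x hx y hy hxy
    simp only [Finset.coe_filter, Set.mem_setOf_eq] at hx hy hxy
    have h1 : (α ^ 2 + β ^ 2) * (x 0 - y 0) = 0 := by
      linear_combination α * (hx.2 - hy.2) + β * hxy
    have h2 : (α ^ 2 + β ^ 2) * (x 1 - y 1) = 0 := by
      linear_combination β * (hx.2 - hy.2) - α * hxy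
    have h3 := (mul_eq_zero.mp h1).resolve_left hαβ.ne'
    have h4 := (mul_eq_zero.mp h2).resolve_left hαβ.ne'
    exact ext77 (by linarith) (by linarith)
  obtain ⟨a, ha, b, hb, c, hc, hab, hbc⟩ := exists3 _ _ hinj hcon
  rw [Finset.mem_filter] at ha hb hc
  have hac := hab.trans hbc
  apply hC b hb.1
  set s := fun x : E2 => β * x 0 - α * x 1 with hs
  have hd : 0 < s c - s a := by linarith
  have ha' : a ∈ ((C : Set E2) \ {b}) := ⟨ha.1, fun h => by rw [h] at hab; exact lt_irrefl _ hab⟩
  have hc' : c ∈ ((C : Set E2) \ {b}) := ⟨hc.1, fun h => by rw [h] at hbc; exact lt_irrefl _ hbc⟩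
  have e1 : (α ^ 2 + β ^ 2) * ((s c - s a) * b 0 - (s c - s b) * a 0 - (s b - s a) * c 0) = 0 := by
    simp only [hs]
    linear_combination (α * (s c - s a)) * hb.2 - (α * (s c - s b)) * ha.2 - (α * (s b - s a)) * hc.2
  have e2 : (α ^ 2 + β ^ 2) * ((s c - s a) * b 1 - (s c - s b) * a 1 - (s b - s a) * c 1) = 0 := by
    simp only [hs]
    linear_combination (β * (s c - s a)) * hb.2 - (β * (s c - s b)) * ha.2 - (β * (s b - s a)) * hc.2
  have e3 := (mul_eq_zero.mp e1).resolve_left hαβ.ne'
  have e4 := (mul_eq_zero.mp e2).resolve_left hαβ.ne'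
  apply mem_hull3 (α := (s c - s b) / (s c - s a)) (β := (s b - s a) / (s c - s a)) (γ := 0)
    ha' hc' hc' (div_nonneg (by linarith) hd.le) (div_nonneg (by linarith) hd.le) (le_refl _)
  · field_simp
    ring
  · field_simp
    linarith
  · field_simp
    linarith

/-- a nonzero vector is a difference of at most two pairs of points in convex position -/
lemma diff2 {C : Finset E2} (hC : Cvx C) {v : E2} (hv : v ≠ 0) :
    (C.filter (fun x => x + v ∈ C)).card ≤ 2 := by
  by_contra hcon
  push Not at hcon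
  have hv2 : 0 < v 0 ^ 2 + v 1 ^ 2 := by
    by_contra h
    push Not at h
    have h0 : v 0 = 0 := by nlinarith [sq_nonneg (v 0), sq_nonneg (v 1)]
    have h1 : v 1 = 0 := by nlinarith [sq_nonneg (v 0), sq_nonneg (v 1)]
    exact hv (ext77 (by simpa using h0) (by simpa using h1))
  have hv2' : 0 < (-v 1) ^ 2 + (v 0) ^ 2 := by linarith [neg_sq (v 1)]
  have add0 : ∀ x : E2, (x + v) 0 = x 0 + v 0 := fun x => rfl
  have add1 : ∀ x : E2, (x + v) 1 = x 1 + v 1 := fun x => rfl
  have hinj : Set.InjOn (fun x : E2 => -v 1 * x 0 + v 0 * x 1)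
      (C.filter (fun x => x + v ∈ C) : Set E2) := by
    intro x hx y hy hxy
    simp only [Finset.coe_filter, Set.mem_setOf_eq] at hx hy hxy
    by_contra hne
    have hl := line2 hC hv2' (-v 1 * x 0 + v 0 * x 1)
    set F := C.filter (fun z => -v 1 * z 0 + v 0 * z 1 = -v 1 * x 0 + v 0 * x 1) with hF
    have hxF : x ∈ F := by rw [hF, Finset.mem_filter]; exact ⟨hx.1, rfl⟩
    have hyF : y ∈ F := by rw [hF, Finset.mem_filter]; exact ⟨hy.1, hxy.symm⟩
    have hxvF : x + v ∈ F := by
      rw [hF, Finset.mem_filter, add0, add1]; exact ⟨hx.2, by ring⟩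
    have hyvF : y + v ∈ F := by
      rw [hF, Finset.mem_filter, add0, add1]
      exact ⟨hy.2, by linear_combination (-1 : ℝ) * hxy⟩
    have h3 : ∀ z ∈ F, z ≠ x → z = y := by
      intro z hz hzx
      by_contra hzy
      have : ({x, y, z} : Finset E2) ⊆ F := by
        intro w hw
        simp only [Finset.mem_insert, Finset.mem_singleton] at hw
        rcases hw with rfl | rfl | rfl
        · exact hxF
        · exact hyF
        · exact hz
      have h4 := Finset.card_le_card this
      rw [Finset.card_insert_of_notMem, Finset.card_pair (Ne.symm hzy)] at h4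
      · omega
      · simp only [Finset.mem_insert, Finset.mem_singleton, not_or]
        exact ⟨hne, Ne.symm hzx⟩
    have h5 : x + v = y := h3 _ hxvF (by simpa using hv)
    have h6 : y + v = x := by
      by_contra h
      have := h3 _ hyvF h
      exact hv (by simpa using this)
    have h7 : v + v = 0 := by
      have : x + (v + v) = x := by rw [← add_assoc, h5, h6]
      simpa using this
    have h8 : (2 : ℝ) • v = 0 := by rw [two_smul]; exact h7
    exact hv ((smul_eq_zero.mp h8).resolve_left (by norm_num))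
  obtain ⟨a, ha, b, hb, c, hc, hab, hbc⟩ := exists3 _ _ hinj hcon
  rw [Finset.mem_filter] at ha hb hc
  have hac := hab.trans hbc
  set h := fun x : E2 => -v 1 * x 0 + v 0 * x 1 with hh
  have hd : 0 < h c - h a := by linarith
  have hnab : a ≠ b := fun e => by rw [e] at hab; exact lt_irrefl _ hab
  have hncb : c ≠ b := fun e => by rw [e] at hbc; exact lt_irrefl _ hbc
  have hbv : b + v ≠ b := by simpa using hv
  -- t, p
  set t := (h b - h a) / (h c - h a) with ht
  have ht0 : 0 < t := div_pos (by linarith) hd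
  have ht1 : t < 1 := by rw [ht, div_lt_one hd]; linarith
  have htd : t * (h c - h a) = h b - h a := div_mul_cancel₀ _ hd.ne'
  set p0 := (1 - t) * a 0 + t * c 0 with hp0
  set p1 := (1 - t) * a 1 + t * c 1 with hp1
  set lam := (v 0 * (b 0 - p0) + v 1 * (b 1 - p1)) / (v 0 ^ 2 + v 1 ^ 2) with hlam
  have hlamd : lam * (v 0 ^ 2 + v 1 ^ 2) = v 0 * (b 0 - p0) + v 1 * (b 1 - p1) :=
    div_mul_cancel₀ _ hv2.ne'
  have hperp : -v 1 * (b 0 - p0) + v 0 * (b 1 - p1) = 0 := by
    have e : -v 1 * (b 0 - p0) + v 0 * (b 1 - p1) = (h b - h a) - t * (h c - h a) := by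
      simp only [hh, hp0, hp1]
      ring
    rw [e, htd]
    ring
  have hb0 : b 0 - p0 = lam * v 0 := by
    have : (v 0 ^ 2 + v 1 ^ 2) * (b 0 - p0 - lam * v 0) = 0 := by
      linear_combination (-v 1) * hperp - v 0 * hlamd
    have := (mul_eq_zero.mp this).resolve_left hv2.ne'
    linarith
  have hb1 : b 1 - p1 = lam * v 1 := by
    have : (v 0 ^ 2 + v 1 ^ 2) * (b 1 - p1 - lam * v 1) = 0 := by
      linear_combination (v 0) * hperp - v 1 * hlamd
    have := (mul_eq_zero.mp this).resolve_left hv2.ne'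
    linarith
  rcases le_or_gt 0 lam with hl | hl
  · -- b in the hull of a, c, b + v
    apply hC b hb.1
    have h1l : 0 < 1 + lam := by linarith
    apply mem_hull3 (S := (C : Set E2) \ {b}) (a := a) (b := c) (c := b + v)
      (α := (1 - t) / (1 + lam)) (β := t / (1 + lam))
      (γ := lam / (1 + lam))
      ⟨ha.1, hnab⟩ ⟨hc.1, hncb⟩ ⟨hb.2, hbv⟩
      (div_nonneg (by linarith) h1l.le) (div_nonneg ht0.le h1l.le) (div_nonneg hl h1l.le)
    · field_simp
      ring
    · rw [add0]
      field_simp
      rw [hp0] at hb0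
      linear_combination hb0
    · rw [add1]
      field_simp
      rw [hp1] at hb1
      linear_combination hb1
  · -- b + v in the hull of a + v, c + v, b
    apply hC (b + v) hb.2
    have h1l : 0 < 1 - lam := by linarith
    apply mem_hull3 (S := (C : Set E2) \ {b + v}) (a := a + v) (b := c + v) (c := b)
      (α := (1 - t) / (1 - lam))
      (β := t / (1 - lam)) (γ := -lam / (1 - lam))
      ⟨ha.2, fun e => hnab (add_right_cancel e)⟩ ⟨hc.2, fun e => hncb (add_right_cancel e)⟩
      ⟨hb.1, Ne.symm hbv⟩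
      (div_nonneg (by linarith) h1l.le) (div_nonneg ht0.le h1l.le)
      (div_nonneg (by linarith) h1l.le)
    · field_simp
      ring
    · rw [add0, add0, add0]
      field_simp
      rw [hp0] at hb0
      linear_combination hb0
    · rw [add1, add1, add1]
      field_simp
      rw [hp1] at hb1
      linear_combination hb1

lemma Cvx.subset {C C' : Finset E2} (hC : Cvx C) (h : C' ⊆ C) : Cvx C' := by
  intro x hx hcon
  apply hC x (h hx)
  exact convexHull_mono (Set.diff_subset_diff_left (Finset.coe_subset.mpr h)) hcon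

/-- `|C|² ≤ 4 |C - C|` -/
lemma card_diff {C A : Finset E2} (hC : Cvx C) (hCA : C ⊆ A) : C.card ^ 2 ≤ 4 * (A - A).card := by
  rcases Nat.lt_or_ge C.card 2 with h2 | h2
  · rcases Nat.eq_zero_or_pos C.card with h0 | h0
    · rw [h0]; simp
    · have hA : (A - A).Nonempty := by
        obtain ⟨x, hx⟩ := Finset.card_pos.mp h0
        exact ⟨x - x, Finset.sub_mem_sub (hCA hx) (hCA hx)⟩
      have h1 : C.card = 1 := by omega
      have := Finset.card_pos.mpr hA
      rw [h1]
      omega
  · have h1 : C.offDiag.card ≤ 2 * (A - A).card := by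
      apply Finset.card_le_mul_card_image_of_maps_to (f := fun p : E2 × E2 => p.2 - p.1)
      · intro p hp
        rw [Finset.mem_offDiag] at hp
        exact Finset.sub_mem_sub (hCA hp.2.1) (hCA hp.1)
      · intro v _
        by_cases hv : v = 0
        · have : C.offDiag.filter (fun p => p.2 - p.1 = v) = ∅ := by
            rw [Finset.filter_eq_empty_iff]
            intro p hp h
            rw [Finset.mem_offDiag] at hp
            rw [hv, sub_eq_zero] at h
            exact hp.2.2 h.symm
          rw [this]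
          simp
        · refine le_trans ?_ (diff2 hC hv)
          apply Finset.card_le_card_of_injOn (fun p : E2 × E2 => p.1)
          · intro p hp
            simp only [Finset.coe_filter, Finset.mem_offDiag, Set.mem_setOf_eq] at hp ⊢
            refine ⟨hp.1.1, ?_⟩
            rw [← hp.2]
            have : p.1 + (p.2 - p.1) = p.2 := by abel
            rw [this]
            exact hp.1.2.1
          · intro p hp p' hp' he
            simp only [Finset.coe_filter, Set.mem_setOf_eq] at hp hp'
            have h2 : p.2 = p'.2 := by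
              have e1 : p.2 = p.1 + v := by rw [← hp.2]; abel
              have e2 : p'.2 = p'.1 + v := by rw [← hp'.2]; abel
              rw [e1, e2]
              simp only at he
              rw [he]
            exact Prod.ext he h2
    rw [Finset.offDiag_card] at h1
    have h3 : C.card * 2 ≤ C.card * C.card := Nat.mul_le_mul_left _ h2
    have h4 : C.card ^ 2 = C.card * C.card := sq _
    omega

/-- union version -/
lemma card_union {C : Finset E2} (hC : Cvx C) {r : ℕ} (A : Fin r → Finset E2)
    (hA : ∀ x ∈ C, ∃ i, x ∈ A i) : C.card ^ 2 ≤ 4 * (r * ∑ i, (A i - A i).card) := by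
  have h1 : C.card ≤ ∑ i, (C ∩ A i).card := by
    calc C.card ≤ ((Finset.univ : Finset (Fin r)).biUnion (fun i => C ∩ A i)).card := by
          apply Finset.card_le_card
          intro x hx
          obtain ⟨i, hi⟩ := hA x hx
          rw [Finset.mem_biUnion]
          exact ⟨i, Finset.mem_univ _, Finset.mem_inter.mpr ⟨hx, hi⟩⟩
      _ ≤ _ := Finset.card_biUnion_le
  have h2 : (∑ i, (C ∩ A i).card) ^ 2 ≤ r * ∑ i, (C ∩ A i).card ^ 2 := by
    have := sq_sum_le_card_mul_sum_sq (s := (Finset.univ : Finset (Fin r)))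
      (f := fun i => (C ∩ A i).card)
    simpa using this
  have h3 : ∑ i, (C ∩ A i).card ^ 2 ≤ ∑ i, 4 * (A i - A i).card :=
    Finset.sum_le_sum (fun i _ => card_diff (hC.subset Finset.inter_subset_left)
      Finset.inter_subset_right)
  calc C.card ^ 2 ≤ (∑ i, (C ∩ A i).card) ^ 2 := Nat.pow_le_pow_left h1 2
    _ ≤ r * ∑ i, (C ∩ A i).card ^ 2 := h2
    _ ≤ r * ∑ i, 4 * (A i - A i).card := Nat.mul_le_mul_left _ h3
    _ = 4 * (r * ∑ i, (A i - A i).card) := by rw [← Finset.mul_sum]; ring

/-- lines version -/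
lemma card_lines {C : Finset E2} (hC : Cvx C) {J : ℕ} (α β γ : Fin J → ℝ)
    (hαβ : ∀ j, 0 < α j ^ 2 + β j ^ 2) (h : ∀ x ∈ C, ∃ j, α j * x 0 + β j * x 1 = γ j) :
    C.card ≤ 2 * J := by
  calc C.card ≤ ((Finset.univ : Finset (Fin J)).biUnion
        (fun j => C.filter (fun x => α j * x 0 + β j * x 1 = γ j))).card := by
        apply Finset.card_le_card
        intro x hx
        obtain ⟨j, hj⟩ := h x hx
        rw [Finset.mem_biUnion]
        exact ⟨j, Finset.mem_univ _, Finset.mem_filter.mpr ⟨hx, hj⟩⟩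
    _ ≤ ∑ j : Fin J, (C.filter (fun x => α j * x 0 + β j * x 1 = γ j)).card :=
        Finset.card_biUnion_le
    _ ≤ ∑ _j : Fin J, 2 := Finset.sum_le_sum (fun j _ => line2 hC (hαβ j) _)
    _ = 2 * J := by simp [mul_comm]

/-- separated reals -/
lemma card_sep {α : Type*} (T : Finset α) (f : α → ℝ) {δ R : ℝ} (hδ : 0 < δ) (hR : 0 ≤ R)
    (h1 : ∀ x ∈ T, ∀ y ∈ T, x ≠ y → δ ≤ |f x - f y|)
    (h2 : ∀ x ∈ T, ∀ y ∈ T, f x - f y ≤ R * δ) : (T.card : ℝ) ≤ R + 1 := by
  rcases T.eq_empty_or_nonempty with rfl | hT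
  · simp; linarith
  obtain ⟨a, ha, hamin⟩ := Finset.exists_min_image T f hT
  have hinj : Set.InjOn (fun x => ⌊(f x - f a) / δ⌋₊) (T : Set α) := by
    intro x hx y hy hxy
    by_contra hne
    have h3 := h1 x hx y hy hne
    simp only at hxy
    have hx0 : 0 ≤ (f x - f a) / δ := div_nonneg (by linarith [hamin x hx]) hδ.le
    have hy0 : 0 ≤ (f y - f a) / δ := div_nonneg (by linarith [hamin y hy]) hδ.le
    have h4 := Nat.floor_le hx0
    have h5 := Nat.lt_floor_add_one ((f x - f a) / δ)
    have h6 := Nat.floor_le hy0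
    have h7 := Nat.lt_floor_add_one ((f y - f a) / δ)
    rw [hxy] at h4 h5
    have h8 : |(f x - f a) / δ - (f y - f a) / δ| < 1 := by
      rw [abs_lt]; constructor <;> linarith
    have h9 : (f x - f a) / δ - (f y - f a) / δ = (f x - f y) / δ := by ring
    rw [h9, abs_div, abs_of_pos hδ, div_lt_one hδ] at h8
    linarith
  have h3 : T.card ≤ (Finset.range (⌊R⌋₊ + 1)).card := by
    apply Finset.card_le_card_of_injOn _ _ hinj
    intro x hx
    rw [Finset.coe_range, Set.mem_Iio, Nat.lt_succ_iff]
    apply Nat.floor_le_floor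
    rw [div_le_iff₀ hδ]
    exact h2 x hx a ha
  rw [Finset.card_range] at h3
  calc (T.card : ℝ) ≤ ((⌊R⌋₊ + 1 : ℕ) : ℝ) := by exact_mod_cast h3
    _ = (⌊R⌋₊ : ℝ) + 1 := by push_cast; ring
    _ ≤ R + 1 := by linarith [Nat.floor_le hR]

/-- separated eccentricity classes are small -/
lemma card_EC_sep (P : Finset E2) (e : ℝ) {δ Δ : ℝ} (hδ : 0 < δ) (hΔ : 1 ≤ Δ)
    (hsep : ∀ x ∈ P, ∀ y ∈ P, x ≠ y → δ ≤ dist x y)
    (hdiam : ∀ x ∈ P, ∀ y ∈ P, dist x y ≤ Δ * δ) (he : 0 < e) :
    ((EC P e).card : ℝ) ≤ 10 * Δ := by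
  have hex : ∀ x : E2, ∃ y : E2, x ∈ EC P e → (y ∈ P ∧ dist x y = e) := by
    intro x
    by_cases hx : x ∈ EC P e
    · obtain ⟨y, hy, hy2⟩ := (mem_EC.mp hx).2.1
      exact ⟨y, fun _ => ⟨hy, hy2⟩⟩
    · exact ⟨x, fun h => absurd h hx⟩
  choose g hg using hex
  set q : E2 → Fin 4 := fun x => quad (g x 0 - x 0) (g x 1 - x 1) with hq
  have hinner : ∀ x ∈ EC P e, ∀ x' ∈ EC P e, x' ≠ x →
      0 < (g x 0 - x 0) * (x' 0 - x 0) + (g x 1 - x 1) * (x' 1 - x 1) := by
    intro x hx x' hx' hne
    obtain ⟨h1, h2⟩ := hg x hx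
    have h3 := inner_pos hne (by rw [h2]; exact (mem_EC.mp hx').2.2 _ h1)
    have h4 : inner ℝ (g x - x) (x' - x) =
        (g x 0 - x 0) * (x' 0 - x 0) + (g x 1 - x 1) * (x' 1 - x 1) := by
      simp [PiLp.inner_apply, Fin.sum_univ_two]
      ring
    rw [h4] at h3
    exact h3
  have hvs : ∀ x ∈ EC P e, 0 < (g x 0 - x 0) ^ 2 + (g x 1 - x 1) ^ 2 := by
    intro x hx
    rw [vsq (hg x hx).2]
    positivity
  -- in each quadrant
  have hquad : ∀ k : Fin 4, (((EC P e).filter (fun x => q x = k)).card : ℝ) ≤ 3 / 2 * Δ + 1 := by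
    intro k
    -- the sign of the functional
    obtain ⟨σ, hσ, hmono⟩ : ∃ σ : ℝ, (σ = 1 ∨ σ = -1) ∧ ∀ x ∈ EC P e, ∀ x' ∈ EC P e, q x = k →
        q x' = k → x' ≠ x → 0 ≤ σ * ((x' 0 - x 0) * (x' 1 - x 1)) := by
      have h1 : ∀ p r p' r' a b : ℝ, 0 < p → 0 ≤ r → 0 < p' → 0 ≤ r' → 0 < p * a + r * b →
          0 < p' * (-a) + r' * (-b) → a * b ≤ 0 := by
        intro p r p' r' a b hp hr hp' hr' h1 h2
        by_contra hcon
        push Not at hcon
        rcases pos_and_pos_or_neg_and_neg_of_mul_pos hcon with ⟨ha, hb⟩ | ⟨ha, hb⟩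
        · nlinarith [mul_pos hp' ha, mul_nonneg hr' hb.le]
        · nlinarith [mul_pos_of_neg_of_neg (neg_neg_of_pos hp) ha,
            mul_nonneg hr (neg_nonneg.mpr hb.le)]
      have hcase : ∀ x ∈ EC P e, ∀ x' ∈ EC P e, x' ≠ x →
          0 < (g x 0 - x 0) * (x' 0 - x 0) + (g x 1 - x 1) * (x' 1 - x 1) ∧
          0 < (g x' 0 - x' 0) * (-(x' 0 - x 0)) + (g x' 1 - x' 1) * (-(x' 1 - x 1)) := by
        intro x hx x' hx' hne
        refine ⟨hinner x hx x' hx' hne, ?_⟩
        have := hinner x' hx' x hx (Ne.symm hne)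
        have e1 : -(x' 0 - x 0) = x 0 - x' 0 := by ring
        have e2 : -(x' 1 - x 1) = x 1 - x' 1 := by ring
        rw [e1, e2]
        exact this
      have hk : k = 0 ∨ k = 1 ∨ k = 2 ∨ k = 3 := by
        fin_cases k <;> simp
      rcases hk with rfl | rfl | rfl | rfl
      · refine ⟨-1, Or.inr rfl, ?_⟩
        intro x hx x' hx' hk hk' hne
        obtain ⟨i1, i2⟩ := hcase x hx x' hx' hne
        rcases quad_cases _ _ (hvs x hx) with ⟨e, k1, k2⟩ | ⟨e, -, -⟩ | ⟨e, -, -⟩ | ⟨e, -, -⟩
        · rcases quad_cases _ _ (hvs x' hx') with ⟨e', k1', k2'⟩ | ⟨e', -, -⟩ | ⟨e', -, -⟩ | ⟨e', -, -⟩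
          · have := h1 _ _ _ _ _ _ k1 k2 k1' k2' i1 i2
            linarith
          all_goals
            exfalso
            rw [hq] at hk'
            simp only at hk'
            rw [e'] at hk'
            exact absurd hk' (by decide)
        all_goals
          exfalso
          rw [hq] at hk
          simp only at hk
          rw [e] at hk
          exact absurd hk (by decide)
      · refine ⟨1, Or.inl rfl, ?_⟩
        intro x hx x' hx' hk hk' hne
        obtain ⟨i1, i2⟩ := hcase x hx x' hx' hne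
        rcases quad_cases _ _ (hvs x hx) with ⟨e, -, -⟩ | ⟨e, k1, k2⟩ | ⟨e, -, -⟩ | ⟨e, -, -⟩
        · exfalso
          rw [hq] at hk
          simp only at hk
          rw [e] at hk
          exact absurd hk (by decide)
        · rcases quad_cases _ _ (hvs x' hx') with ⟨e', -, -⟩ | ⟨e', k1', k2'⟩ | ⟨e', -, -⟩ | ⟨e', -, -⟩
          · exfalso
            rw [hq] at hk'
            simp only at hk'
            rw [e'] at hk'
            exact absurd hk' (by decide)
          · have := h1 _ _ _ _ (x' 1 - x 1) (-(x' 0 - x 0)) k2 (neg_nonneg.mpr k1) k2'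
              (neg_nonneg.mpr k1') (by linarith) (by linarith)
            linarith
          all_goals
            exfalso
            rw [hq] at hk'
            simp only at hk'
            rw [e'] at hk'
            exact absurd hk' (by decide)
        all_goals
          exfalso
          rw [hq] at hk
          simp only at hk
          rw [e] at hk
          exact absurd hk (by decide)
      · refine ⟨-1, Or.inr rfl, ?_⟩
        intro x hx x' hx' hk hk' hne
        obtain ⟨i1, i2⟩ := hcase x hx x' hx' hne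
        rcases quad_cases _ _ (hvs x hx) with ⟨e, -, -⟩ | ⟨e, -, -⟩ | ⟨e, k1, k2⟩ | ⟨e, -, -⟩
        · exfalso
          rw [hq] at hk
          simp only at hk
          rw [e] at hk
          exact absurd hk (by decide)
        · exfalso
          rw [hq] at hk
          simp only at hk
          rw [e] at hk
          exact absurd hk (by decide)
        · rcases quad_cases _ _ (hvs x' hx') with ⟨e', -, -⟩ | ⟨e', -, -⟩ | ⟨e', k1', k2'⟩ | ⟨e', -, -⟩
          · exfalso
            rw [hq] at hk'
            simp only at hk'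
            rw [e'] at hk'
            exact absurd hk' (by decide)
          · exfalso
            rw [hq] at hk'
            simp only at hk'
            rw [e'] at hk'
            exact absurd hk' (by decide)
          · have := h1 _ _ _ _ (-(x' 0 - x 0)) (-(x' 1 - x 1)) (neg_pos.mpr k1) (neg_nonneg.mpr k2)
              (neg_pos.mpr k1') (neg_nonneg.mpr k2') (by linarith) (by linarith)
            linarith
          · exfalso
            rw [hq] at hk'
            simp only at hk'
            rw [e'] at hk'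
            exact absurd hk' (by decide)
        · exfalso
          rw [hq] at hk
          simp only at hk
          rw [e] at hk
          exact absurd hk (by decide)
      · refine ⟨1, Or.inl rfl, ?_⟩
        intro x hx x' hx' hk hk' hne
        obtain ⟨i1, i2⟩ := hcase x hx x' hx' hne
        rcases quad_cases _ _ (hvs x hx) with ⟨e, -, -⟩ | ⟨e, -, -⟩ | ⟨e, -, -⟩ | ⟨e, k1, k2⟩
        · exfalso
          rw [hq] at hk
          simp only at hk
          rw [e] at hk
          exact absurd hk (by decide)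
        · exfalso
          rw [hq] at hk
          simp only at hk
          rw [e] at hk
          exact absurd hk (by decide)
        · exfalso
          rw [hq] at hk
          simp only at hk
          rw [e] at hk
          exact absurd hk (by decide)
        · rcases quad_cases _ _ (hvs x' hx') with ⟨e', -, -⟩ | ⟨e', -, -⟩ | ⟨e', -, -⟩ | ⟨e', k1', k2'⟩
          · exfalso
            rw [hq] at hk'
            simp only at hk'
            rw [e'] at hk'
            exact absurd hk' (by decide)
          · exfalso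
            rw [hq] at hk'
            simp only at hk'
            rw [e'] at hk'
            exact absurd hk' (by decide)
          · exfalso
            rw [hq] at hk'
            simp only at hk'
            rw [e'] at hk'
            exact absurd hk' (by decide)
          · have := h1 _ _ _ _ (-(x' 1 - x 1)) (x' 0 - x 0) (neg_pos.mpr k2) k1
              (neg_pos.mpr k2') k1' (by linarith) (by linarith)
            linarith
    have hσ2 : σ * σ = 1 := by rcases hσ with rfl | rfl <;> norm_num
    apply card_sep _ (fun x : E2 => x 0 + σ * x 1) hδ (by linarith)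
    · intro x hx y hy hne
      rw [Finset.mem_filter] at hx hy
      have h1 := hmono y hy.1 x hx.1 hy.2 hx.2 hne
      have h2 := hsep x (mem_EC.mp hx.1).1 y (mem_EC.mp hy.1).1 hne
      have h3 := dist_sq77 x y
      have h4 : dist x y ^ 2 ≤ (x 0 + σ * x 1 - (y 0 + σ * y 1)) ^ 2 := by
        rw [h3]
        have e : (x 0 + σ * x 1 - (y 0 + σ * y 1)) ^ 2 = (x 0 - y 0) ^ 2 +
          (σ * σ) * (x 1 - y 1) ^ 2 + 2 * (σ * ((x 0 - y 0) * (x 1 - y 1))) := by ring
        rw [e, hσ2]
        linarith
      have h5 := sq_le_sq.mp h4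
      rw [abs_of_nonneg dist_nonneg] at h5
      linarith
    · intro x hx y hy
      rw [Finset.mem_filter] at hx hy
      have h2 := hdiam x (mem_EC.mp hx.1).1 y (mem_EC.mp hy.1).1
      have h3 := dist_sq77 x y
      have h4 : (x 0 + σ * x 1 - (y 0 + σ * y 1)) ^ 2 ≤ (3 / 2 * dist x y) ^ 2 := by
        have e : (x 0 + σ * x 1 - (y 0 + σ * y 1)) ^ 2 = (x 0 - y 0) ^ 2 +
          (σ * σ) * (x 1 - y 1) ^ 2 + 2 * ((x 0 - y 0) * (σ * (x 1 - y 1))) := by ring
        have e' : (x 0 - y 0) ^ 2 + (σ * σ) * (x 1 - y 1) ^ 2 - 2 * ((x 0 - y 0) * (σ * (x 1 - y 1)))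
          = ((x 0 - y 0) - σ * (x 1 - y 1)) ^ 2 := by ring
        have h5 := sq_nonneg ((x 0 - y 0) - σ * (x 1 - y 1))
        rw [← e'] at h5
        rw [e, mul_pow, h3]
        rw [hσ2] at h5 ⊢
        nlinarith [sq_nonneg (x 0 - y 0), sq_nonneg (x 1 - y 1)]
      have h5 := sq_le_sq.mp h4
      rw [abs_of_nonneg (by positivity : (0 : ℝ) ≤ 3 / 2 * dist x y)] at h5
      have h6 := le_abs_self (x 0 + σ * x 1 - (y 0 + σ * y 1))
      nlinarith
  have h2 : (EC P e).card = ∑ k : Fin 4, ((EC P e).filter (fun x => q x = k)).card :=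
    Finset.card_eq_sum_card_fiberwise (fun y _ => Finset.mem_univ _)
  rw [h2]
  push_cast
  calc ∑ k : Fin 4, (((EC P e).filter (fun x => q x = k)).card : ℝ)
      ≤ ∑ _k : Fin 4, (3 / 2 * Δ + 1) := Finset.sum_le_sum (fun k _ => hquad k)
    _ = 4 * (3 / 2 * Δ + 1) := by simp; ring
    _ ≤ 10 * Δ := by linarith

end Pool.Agent.Helper77.CX
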