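import Pool.Agent.Helper77.CX.Vest

/-!
# Eccentricity classes of a finite plane set
-/

set_option autoImplicit false
open scoped Classical Pointwise

namespace Pool.Agent.Helper77.CX

open Pool.Agent.Helper85.LowMult

/-- the points of `P` whose largest distance to a point of `P` is `e` -/
noncomputable def EC (P : Finset E2) (e : ℝ) : Finset E2 :=
  P.filter (fun x => (∃ y ∈ P, dist x y = e) ∧ ∀ y ∈ P, dist x y ≤ e)

/-- the distances of `P` -/
noncomputable def Ds (P : Finset E2) : Finset ℝ := P.offDiag.image (fun x => dist x.1 x.2)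

/-- the points with a point of `P` at distance at least `d` -/
noncomputable def X (P : Finset E2) (d : ℝ) : Finset E2 :=
  P.filter (fun x => ∃ y ∈ P, d ≤ dist x y)

lemma mem_EC {P : Finset E2} {e : ℝ} {x : E2} :
    x ∈ EC P e ↔ x ∈ P ∧ (∃ y ∈ P, dist x y = e) ∧ ∀ y ∈ P, dist x y ≤ e := by
  rw [EC, Finset.mem_filter]

lemma mem_X {P : Finset E2} {d : ℝ} {x : E2} :
    x ∈ X P d ↔ x ∈ P ∧ ∃ y ∈ P, d ≤ dist x y := by
  rw [X, Finset.mem_filter]

lemma mem_Ds {P : Finset E2} {e : ℝ} :
    e ∈ Ds P ↔ ∃ x ∈ P, ∃ y ∈ P, x ≠ y ∧ dist x y = e := by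
  unfold Ds
  rw [Finset.mem_image]
  constructor
  · rintro ⟨⟨x, y⟩, h, rfl⟩
    rw [Finset.mem_offDiag] at h
    exact ⟨x, h.1, y, h.2.1, h.2.2, rfl⟩
  · rintro ⟨x, hx, y, hy, hne, rfl⟩
    exact ⟨(x, y), Finset.mem_offDiag.mpr ⟨hx, hy, hne⟩, rfl⟩

lemma Ds_pos {P : Finset E2} {e : ℝ} (h : e ∈ Ds P) : 0 < e := by
  obtain ⟨x, -, y, -, hne, rfl⟩ := mem_Ds.mp h
  exact dist_pos.mpr hne

/-- points of an eccentricity class are separated from the others by a line -/
lemma inner_pos {x x' y : E2} (hne : x' ≠ x) (h : dist x' y ≤ dist x y) :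
    0 < inner ℝ (y - x) (x' - x) := by
  have h1 : ‖(x' - x) - (y - x)‖ ^ 2 = ‖x' - x‖ ^ 2 - 2 * inner ℝ (x' - x) (y - x) + ‖y - x‖ ^ 2 :=
    norm_sub_sq_real _ _
  have h2 : (x' - x) - (y - x) = x' - y := by abel
  rw [h2] at h1
  rw [dist_eq_norm, dist_eq_norm, norm_sub_rev x y] at h
  have h3 : ‖x' - y‖ ^ 2 ≤ ‖y - x‖ ^ 2 := pow_le_pow_left₀ (norm_nonneg _) h 2
  have h4 : 0 < ‖x' - x‖ := norm_pos_iff.mpr (sub_ne_zero.mpr hne)
  have h5 : 0 < ‖x' - x‖ ^ 2 := by positivity
  rw [real_inner_comm]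
  linarith

/-- eccentricity classes are in convex position -/
lemma ec_convex (P : Finset E2) (e : ℝ) :
    ∀ x ∈ EC P e, x ∉ convexHull ℝ ((EC P e : Set E2) \ {x}) := by
  intro x hx hcon
  obtain ⟨hxP, ⟨y, hyP, hy⟩, -⟩ := mem_EC.mp hx
  have h1 : ((EC P e : Set E2) \ {x}) ⊆ {z : E2 | inner ℝ (y - x) x < inner ℝ (y - x) z} := by
    intro z hz
    obtain ⟨hz1, hz2⟩ := hz
    have hz3 := (mem_EC.mp hz1).2.2 y hyP
    have := inner_pos (x := x) (x' := z) (y := y) hz2 (by rw [hy]; exact hz3)
    rw [inner_sub_right] at this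
    simp only [Set.mem_setOf_eq]
    linarith
  have h2 : Convex ℝ {z : E2 | inner ℝ (y - x) x < inner ℝ (y - x) z} := by
    have := convex_halfSpace_gt (𝕜 := ℝ) (f := fun z : E2 => inner ℝ (y - x) z)
      ⟨fun a b => inner_add_right _ _ _, fun c a => by rw [inner_smul_right]; rfl⟩
      (inner ℝ (y - x) x)
    exact this
  have h3 := convexHull_min h1 h2 hcon
  simp only [Set.mem_setOf_eq] at h3
  exact lt_irrefl _ h3

lemma X_subset (P : Finset E2) {d : ℝ} (hd : 0 < d) :
    X P d ⊆ ((Ds P).filter (fun e => d ≤ e)).biUnion (fun e => EC P e) := by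
  intro x hx
  obtain ⟨hxP, y, hyP, hy⟩ := mem_X.mp hx
  obtain ⟨z, hz, hzmax⟩ := Finset.exists_max_image P (fun z => dist x z) ⟨x, hxP⟩
  rw [Finset.mem_biUnion]
  have h1 : d ≤ dist x z := hy.trans (hzmax y hyP)
  refine ⟨dist x z, ?_, ?_⟩
  · rw [Finset.mem_filter, mem_Ds]
    refine ⟨⟨x, hxP, z, hz, ?_, rfl⟩, h1⟩
    intro h
    rw [← h, dist_self] at h1
    linarith
  · rw [mem_EC]
    exact ⟨hxP, ⟨z, hz, rfl⟩, fun y hy => hzmax y hy⟩

lemma card_X_le (P : Finset E2) {d : ℝ} (hd : 0 < d) (M k : ℕ)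
    (hM : ∀ e ∈ Ds P, d ≤ e → (EC P e).card ≤ M)
    (hk : ((Ds P).filter (fun e => d ≤ e)).card ≤ k) : (X P d).card ≤ k * M := by
  calc (X P d).card ≤ _ := Finset.card_le_card (X_subset P hd)
    _ ≤ ∑ e ∈ (Ds P).filter (fun e => d ≤ e), (EC P e).card := Finset.card_biUnion_le
    _ ≤ ∑ _e ∈ (Ds P).filter (fun e => d ≤ e), M := by
        apply Finset.sum_le_sum
        intro e he
        rw [Finset.mem_filter] at he
        exact hM e he.1 he.2
    _ = ((Ds P).filter (fun e => d ≤ e)).card * M := by rw [Finset.sum_const, smul_eq_mul]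
    _ ≤ k * M := Nat.mul_le_mul_right _ hk

lemma pairs_eq_X (P : Finset E2) (d : ℝ) : pairs P d = pairs (X P d) d := by
  ext ⟨x, y⟩
  simp only [pairs, Finset.mem_filter, Finset.mem_offDiag]
  constructor
  · rintro ⟨⟨hx, hy, hne⟩, h⟩
    refine ⟨⟨mem_X.mpr ⟨hx, y, hy, h.ge⟩, mem_X.mpr ⟨hy, x, hx, ?_⟩, hne⟩, h⟩
    rw [dist_comm]
    exact h.ge
  · rintro ⟨⟨hx, hy, hne⟩, h⟩
    exact ⟨⟨(mem_X.mp hx).1, (mem_X.mp hy).1, hne⟩, h⟩

lemma low_subset (P : Finset E2) : low P ⊆ Ds P := Finset.filter_subset _ _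

lemma mem_low {P : Finset E2} {e : ℝ} :
    e ∈ low P ↔ e ∈ Ds P ∧ (pairs P e).card ≤ 2 * P.card := by
  unfold low Ds pairs
  rw [Finset.mem_filter]

/-- the `s` largest elements of a finite set of reals -/
lemma exists_top (D : Finset ℝ) (s : ℕ) (hs : s ≤ D.card) :
    ∃ T ⊆ D, T.card = s ∧ ∀ t ∈ T, ∀ e ∈ D, e ∉ T → e < t := by
  induction s with
  | zero => exact ⟨∅, by simp, by simp, by simp⟩
  | succ s ih =>
    obtain ⟨T, hT, hTs, hT2⟩ := ih (by omega)
    have h1 : (D \ T).Nonempty := by
      rw [← Finset.card_pos, Finset.card_sdiff_of_subset hT]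
      omega
    obtain ⟨m, hm, hmax⟩ := Finset.exists_max_image (D \ T) id h1
    rw [Finset.mem_sdiff] at hm
    refine ⟨insert m T, ?_, ?_, ?_⟩
    · intro t ht
      rcases Finset.mem_insert.mp ht with rfl | ht
      · exact hm.1
      · exact hT ht
    · rw [Finset.card_insert_of_notMem hm.2, hTs]
    · intro t ht e he heT
      rw [Finset.mem_insert, not_or] at heT
      rcases Finset.mem_insert.mp ht with rfl | ht
      · have h2 := hmax e (Finset.mem_sdiff.mpr ⟨he, heT.2⟩)
        simp only [id] at h2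
        exact lt_of_le_of_ne h2 heT.1
      · exact hT2 t ht e he heT.2

/-- **Theorem (a), bounded version.** -/
theorem main_a (P : Finset E2) (M : ℕ) (hM1 : 1 ≤ M)
    (hM : ∀ e ∈ Ds P, ((Ds P).filter (fun d => e < d)).card ≤ (low P).card → (EC P e).card ≤ M) :
    P.card ≤ 2 * ((low P).card + 1) * ((low P).card + 2) * M := by
  set L := (low P).card with hL
  set n := P.card with hn
  by_cases hH : (Ds P \ low P).Nonempty
  · obtain ⟨d, hd, hmax⟩ := Finset.exists_max_image (Ds P \ low P) id hH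
    rw [Finset.mem_sdiff] at hd
    have hd0 := Ds_pos hd.1
    have hlarge : (Ds P).filter (fun e => d < e) ⊆ low P := by
      intro e he
      rw [Finset.mem_filter] at he
      by_contra hcon
      have := hmax e (Finset.mem_sdiff.mpr ⟨he.1, hcon⟩)
      simp only [id] at this
      linarith
    have hκ : ((Ds P).filter (fun e => d < e)).card ≤ L := Finset.card_le_card hlarge
    have hκ' : ((Ds P).filter (fun e => d ≤ e)).card ≤ L + 1 := by
      have : (Ds P).filter (fun e => d ≤ e) ⊆ insert d ((Ds P).filter (fun e => d < e)) := by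
        intro e he
        rw [Finset.mem_filter] at he
        rw [Finset.mem_insert, Finset.mem_filter]
        rcases he.2.eq_or_lt with h | h
        · left; exact h.symm
        · right; exact ⟨he.1, h⟩
      calc ((Ds P).filter (fun e => d ≤ e)).card ≤ _ := Finset.card_le_card this
        _ ≤ _ := Finset.card_insert_le _ _
        _ ≤ L + 1 := by omega
    have hX := card_X_le P hd0 M (L + 1) (by
      intro e he hde
      apply hM e he
      refine le_trans (Finset.card_le_card ?_) hκ
      intro e' he'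
      rw [Finset.mem_filter] at he' ⊢
      exact ⟨he'.1, lt_of_le_of_lt hde he'.2⟩) hκ'
    have hhigh : 2 * n < (pairs P d).card := by
      by_contra hcon
      push Not at hcon
      exact hd.2 (mem_low.mpr ⟨hd.1, hcon⟩)
    have hXD : (((X P d).offDiag.image (fun x => dist x.1 x.2)).filter (fun e => d < e)).card ≤ L := by
      refine le_trans (Finset.card_le_card ?_) hκ
      apply Finset.filter_subset_filter
      unfold Ds
      apply Finset.image_subset_image
      intro p hp
      rw [Finset.mem_offDiag] at hp ⊢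
      exact ⟨(mem_X.mp hp.1).1, (mem_X.mp hp.2.1).1, hp.2.2⟩
    have hv := vest (X P d) hd0 hXD
    rw [← pairs_eq_X] at hv
    have h1 : 2 * n < 4 * (L + 2) * ((L + 1) * M) :=
      lt_of_lt_of_le hhigh (hv.trans (Nat.mul_le_mul_left _ hX))
    have h2 : 4 * (L + 2) * ((L + 1) * M) = 2 * (2 * (L + 1) * (L + 2) * M) := by ring
    omega
  · -- all distances are low
    rw [Finset.not_nonempty_iff_eq_empty, Finset.sdiff_eq_empty_iff_subset] at hH
    have h1 : P.offDiag.card ≤ 2 * n * L := by
      have h2 : P.offDiag.card ≤ 2 * n * (low P).card := by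
        apply Finset.card_le_mul_card_image_of_maps_to (f := fun x => dist x.1 x.2)
        · intro x hx
          exact hH (Finset.mem_image_of_mem _ hx)
        · intro b hb
          exact (mem_low.mp hb).2
      exact h2
    rw [Finset.offDiag_card, ← hn] at h1
    rcases Nat.eq_zero_or_pos n with h0 | hpos
    · rw [h0]; omega
    · have h2 : n * n ≤ (2 * L + 1) * n := by
        have : n * n ≤ 2 * n * L + n := by omega
        calc n * n ≤ 2 * n * L + n := this
          _ = (2 * L + 1) * n := by ring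
      have h3 : n ≤ 2 * L + 1 := Nat.le_of_mul_le_mul_right h2 hpos
      calc n ≤ 2 * L + 1 := h3
        _ ≤ 2 * (L + 1) * (L + 2) * 1 := by nlinarith
        _ ≤ 2 * (L + 1) * (L + 2) * M := Nat.mul_le_mul_left _ hM1

/-- **Theorem (b), bounded version.** -/
theorem main_b (P : Finset E2) (M : ℕ) (hM1 : 1 ≤ M)
    (hM : ∀ e ∈ Ds P, ((Ds P).filter (fun d => e < d)).card ≤ 2 * (low P).card + 1 →
      (EC P e).card ≤ M) :
    P.card ≤ 2 * ((low P).card + 1) * M ^ 2 := by
  set L := (low P).card with hL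
  set n := P.card with hn
  have hMM : M ≤ M ^ 2 := by nlinarith
  by_cases hD : (Ds P).card ≤ 2 * L + 1
  · -- few distances
    rcases Nat.lt_or_ge n 2 with hn2 | hn2
    · calc n ≤ 2 * (L + 1) * 1 := by nlinarith
        _ ≤ 2 * (L + 1) * M ^ 2 := Nat.mul_le_mul_left _ (hM1.trans hMM)
    · have h1 : P ⊆ (Ds P).biUnion (fun e => EC P e) := by
        intro x hx
        obtain ⟨y, hy, hne⟩ := Finset.exists_mem_ne (by omega : 1 < P.card) x
        obtain ⟨z, hz, hzmax⟩ := Finset.exists_max_image P (fun z => dist x z) ⟨x, hx⟩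
        have h1 : 0 < dist x z := lt_of_lt_of_le (dist_pos.mpr hne.symm) (hzmax y hy)
        rw [Finset.mem_biUnion]
        refine ⟨dist x z, mem_Ds.mpr ⟨x, hx, z, hz, ?_, rfl⟩, mem_EC.mpr ⟨hx, ⟨z, hz, rfl⟩, hzmax⟩⟩
        intro h
        rw [← h, dist_self] at h1
        exact lt_irrefl _ h1
      have h2 : n ≤ (2 * L + 1) * M := by
        calc n ≤ _ := Finset.card_le_card h1
          _ ≤ ∑ e ∈ Ds P, (EC P e).card := Finset.card_biUnion_le
          _ ≤ ∑ _e ∈ Ds P, M := by
              apply Finset.sum_le_sum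
              intro e he
              apply hM e he
              exact (Finset.card_le_card (Finset.filter_subset _ _)).trans hD
          _ = (Ds P).card * M := by rw [Finset.sum_const, smul_eq_mul]
          _ ≤ (2 * L + 1) * M := Nat.mul_le_mul_right _ hD
      calc n ≤ (2 * L + 1) * M := h2
        _ ≤ 2 * (L + 1) * M := Nat.mul_le_mul_right _ (by omega)
        _ ≤ 2 * (L + 1) * M ^ 2 := Nat.mul_le_mul_left _ hMM
  · push Not at hD
    obtain ⟨T, hTD, hTc, hT2⟩ := exists_top (Ds P) (2 * L + 2) (by omega)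
    have hTne : T.Nonempty := by
      rw [← Finset.card_pos]; omega
    obtain ⟨d, hdT, hdmin⟩ := Finset.exists_min_image T id hTne
    simp only [id] at hdmin
    have hd0 := Ds_pos (hTD hdT)
    have hTeq : (Ds P).filter (fun e => d ≤ e) ⊆ T := by
      intro e he
      rw [Finset.mem_filter] at he
      by_contra hcon
      have := hT2 d hdT e he.1 hcon
      linarith
    have hX := card_X_le P hd0 M (2 * L + 2) (by
      intro e he hde
      apply hM e he
      have h1 : (Ds P).filter (fun d => e < d) ⊆ T.erase d := by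
        intro e' he'
        rw [Finset.mem_filter] at he'
        rw [Finset.mem_erase]
        refine ⟨(lt_of_le_of_lt hde he'.2).ne', hTeq ?_⟩
        rw [Finset.mem_filter]
        exact ⟨he'.1, hde.trans he'.2.le⟩
      have h2 := Finset.card_le_card h1
      rw [Finset.card_erase_of_mem hdT, hTc] at h2
      omega) (hTc ▸ Finset.card_le_card hTeq)
    -- high distances in T
    have hHigh : L + 2 ≤ (T \ low P).card := by
      have h1 : T.card ≤ (T \ low P).card + (low P).card := by
        have := Finset.card_le_card (show T ⊆ (T \ low P) ∪ low P by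
          intro t ht
          rw [Finset.mem_union, Finset.mem_sdiff]
          by_cases h : t ∈ low P
          · right; exact h
          · left; exact ⟨ht, h⟩)
        exact this.trans (Finset.card_union_le _ _)
      omega
    have h1 : (T \ low P).biUnion (fun e => pairs P e) ⊆ (X P d).offDiag := by
      intro p hp
      rw [Finset.mem_biUnion] at hp
      obtain ⟨e, he, hp⟩ := hp
      rw [Finset.mem_sdiff] at he
      have hde := hdmin e he.1
      simp only [pairs, Finset.mem_filter, Finset.mem_offDiag] at hp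
      rw [Finset.mem_offDiag, mem_X, mem_X]
      refine ⟨⟨hp.1.1, p.2, hp.1.2.1, ?_⟩, ⟨hp.1.2.1, p.1, hp.1.1, ?_⟩, hp.1.2.2⟩
      · rw [hp.2]; exact hde
      · rw [dist_comm, hp.2]; exact hde
    have h2 : ((T \ low P).biUnion (fun e => pairs P e)).card =
        ∑ e ∈ T \ low P, (pairs P e).card := by
      apply Finset.card_biUnion
      intro e _ e' _ hne
      rw [Function.onFun, Finset.disjoint_left]
      intro p hp hp'
      simp only [pairs, Finset.mem_filter] at hp hp'
      exact hne (hp.2.symm.trans hp'.2)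
    have h3 : (L + 2) * (2 * n) ≤ ((T \ low P).biUnion (fun e => pairs P e)).card := by
      rw [h2]
      calc (L + 2) * (2 * n) ≤ (T \ low P).card * (2 * n) := Nat.mul_le_mul_right _ hHigh
        _ = ∑ _e ∈ T \ low P, (2 * n) := by rw [Finset.sum_const, smul_eq_mul]
        _ ≤ ∑ e ∈ T \ low P, (pairs P e).card := by
            apply Finset.sum_le_sum
            intro e he
            rw [Finset.mem_sdiff] at he
            by_contra hcon
            push Not at hcon
            exact he.2 (mem_low.mpr ⟨hTD he.1, hcon.le⟩)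
    have h4 : ((T \ low P).biUnion (fun e => pairs P e)).card ≤ (X P d).card ^ 2 := by
      calc _ ≤ (X P d).offDiag.card := Finset.card_le_card h1
        _ = (X P d).card * (X P d).card - (X P d).card := Finset.offDiag_card _
        _ ≤ (X P d).card ^ 2 := by rw [sq]; exact Nat.sub_le _ _
    have h5 : (L + 1) * (2 * n) ≤ (L + 1) * (4 * (L + 1) * M ^ 2) := by
      calc (L + 1) * (2 * n) ≤ (L + 2) * (2 * n) := Nat.mul_le_mul_right _ (by omega)
        _ ≤ (X P d).card ^ 2 := h3.trans h4
        _ ≤ ((2 * L + 2) * M) ^ 2 := Nat.pow_le_pow_left hX 2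
        _ = (L + 1) * (4 * (L + 1) * M ^ 2) := by ring
    have h6 := Nat.le_of_mul_le_mul_left h5 (by omega)
    have h7 : 4 * (L + 1) * M ^ 2 = 2 * (2 * (L + 1) * M ^ 2) := by ring
    omega

end Pool.Agent.Helper77.CX
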