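import Pool.Agent.Helper77.CX.Cor

/-!
# Existence of large eccentricity classes, corollaries
-/

set_option autoImplicit false
open scoped Classical Pointwise

namespace Pool.Agent.Helper77.CX

open Pool.Agent.Helper85.LowMult

lemma EC_single {P : Finset E2} (h : Ds P = ∅) : EC P 0 = P := by
  ext x
  rw [mem_EC]
  refine ⟨fun h => h.1, fun hx => ⟨hx, ⟨x, hx, dist_self x⟩, ?_⟩⟩
  intro y hy
  by_contra hcon
  push Not at hcon
  have : dist x y ∈ Ds P := mem_Ds.mpr ⟨x, hx, y, hy, fun e => by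
    rw [e, dist_self] at hcon
    exact lt_irrefl _ hcon, rfl⟩
  rw [h] at this
  simp at this

lemma exists_best {P : Finset E2} (h : (Ds P).Nonempty) (k : ℕ) :
    ∃ e ∈ Ds P, ((Ds P).filter (fun d => e < d)).card ≤ k ∧ 1 ≤ (EC P e).card ∧
      ∀ e' ∈ Ds P, ((Ds P).filter (fun d => e' < d)).card ≤ k → (EC P e').card ≤ (EC P e).card := by
  set S := (Ds P).filter (fun e => ((Ds P).filter (fun d => e < d)).card ≤ k) with hS
  obtain ⟨m, hm, hmax⟩ := Finset.exists_max_image (Ds P) id h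
  simp only [id] at hmax
  have hmS : m ∈ S := by
    rw [hS, Finset.mem_filter]
    refine ⟨hm, ?_⟩
    have : (Ds P).filter (fun d => m < d) = ∅ := by
      rw [Finset.filter_eq_empty_iff]
      intro d hd hlt
      linarith [hmax d hd]
    rw [this]
    simp
  have hm1 : 1 ≤ (EC P m).card := by
    obtain ⟨x, hx, y, hy, hne, hxy⟩ := mem_Ds.mp hm
    apply Finset.card_pos.mpr
    refine ⟨x, mem_EC.mpr ⟨hx, ⟨y, hy, hxy⟩, ?_⟩⟩
    intro z hz
    by_cases hxz : x = z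
    · rw [hxz, dist_self]
      exact (Ds_pos hm).le
    · exact hmax _ (mem_Ds.mpr ⟨x, hx, z, hz, hxz, rfl⟩)
  obtain ⟨e, he, hemax⟩ := Finset.exists_max_image S (fun e => (EC P e).card) ⟨m, hmS⟩
  have he' := he
  rw [hS, Finset.mem_filter] at he'
  refine ⟨e, he'.1, he'.2, hm1.trans (hemax m hmS), ?_⟩
  intro e' h1 h2
  exact hemax e' (by rw [hS, Finset.mem_filter]; exact ⟨h1, h2⟩)

theorem exists_a {P : Finset E2} (hP : P.Nonempty) :
    ∃ e : ℝ, ((Ds P).filter (fun d => e < d)).card ≤ (low P).card ∧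
      P.card ≤ 2 * ((low P).card + 1) * ((low P).card + 2) * (EC P e).card := by
  rcases (Ds P).eq_empty_or_nonempty with h | h
  · refine ⟨0, by rw [h]; simp, ?_⟩
    rw [EC_single h]
    have : 1 ≤ 2 * ((low P).card + 1) * ((low P).card + 2) :=
      Nat.succ_le_of_lt (by positivity)
    exact Nat.le_mul_of_pos_left _ this
  · obtain ⟨e, -, h1, h2, h3⟩ := exists_best h (low P).card
    exact ⟨e, h1, main_a P _ h2 h3⟩

theorem exists_b {P : Finset E2} (hP : P.Nonempty) :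
    ∃ e : ℝ, ((Ds P).filter (fun d => e < d)).card ≤ 2 * (low P).card + 1 ∧
      P.card ≤ 2 * ((low P).card + 1) * (EC P e).card ^ 2 := by
  rcases (Ds P).eq_empty_or_nonempty with h | h
  · refine ⟨0, by rw [h]; simp, ?_⟩
    rw [EC_single h]
    have h1 : 1 ≤ P.card := Finset.card_pos.mpr hP
    have h2 : P.card ≤ P.card ^ 2 := by nlinarith
    exact h2.trans (Nat.le_mul_of_pos_left _ (by positivity))
  · obtain ⟨e, -, h1, h2, h3⟩ := exists_best h (2 * (low P).card + 1)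
    exact ⟨e, h1, main_b P _ h2 h3⟩

theorem union_bound {P : Finset E2} (hP : P.Nonempty) {r : ℕ} (A : Fin r → Finset E2)
    (hA : ∀ x ∈ P, ∃ i, x ∈ A i) :
    P.card ^ 2 ≤ 16 * (((low P).card + 1) * ((low P).card + 2)) ^ 2 *
      (r * ∑ i, (A i - A i).card) := by
  obtain ⟨e, -, he⟩ := exists_a hP
  have h1 := card_union (ec_convex P e) A (fun x hx => hA x (mem_EC.mp hx).1)
  calc P.card ^ 2 ≤ (2 * ((low P).card + 1) * ((low P).card + 2) * (EC P e).card) ^ 2 :=
        Nat.pow_le_pow_left he 2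
    _ = 4 * (((low P).card + 1) * ((low P).card + 2)) ^ 2 * (EC P e).card ^ 2 := by ring
    _ ≤ 4 * (((low P).card + 1) * ((low P).card + 2)) ^ 2 * (4 * (r * ∑ i, (A i - A i).card)) :=
        Nat.mul_le_mul_left _ h1
    _ = _ := by ring

theorem lines_bound {P : Finset E2} (hP : P.Nonempty) {J : ℕ} (α β γ : Fin J → ℝ)
    (hαβ : ∀ j, α j ≠ 0 ∨ β j ≠ 0) (h : ∀ x ∈ P, ∃ j, α j * x 0 + β j * x 1 = γ j) :
    P.card ≤ 4 * ((low P).card + 1) * ((low P).card + 2) * J ∧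
    P.card ≤ 8 * ((low P).card + 1) * J ^ 2 := by
  have hαβ' : ∀ j, 0 < α j ^ 2 + β j ^ 2 := by
    intro j
    rcases hαβ j with h | h
    · have := sq_pos_of_ne_zero h
      have := sq_nonneg (β j)
      linarith
    · have := sq_pos_of_ne_zero h
      have := sq_nonneg (α j)
      linarith
  have hE : ∀ e, (EC P e).card ≤ 2 * J := fun e =>
    card_lines (ec_convex P e) α β γ hαβ' (fun x hx => h x (mem_EC.mp hx).1)
  constructor
  · obtain ⟨e, -, he⟩ := exists_a hP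
    calc P.card ≤ _ := he
      _ ≤ 2 * ((low P).card + 1) * ((low P).card + 2) * (2 * J) := Nat.mul_le_mul_left _ (hE e)
      _ = _ := by ring
  · obtain ⟨e, -, he⟩ := exists_b hP
    calc P.card ≤ _ := he
      _ ≤ 2 * ((low P).card + 1) * (2 * J) ^ 2 :=
          Nat.mul_le_mul_left _ (Nat.pow_le_pow_left (hE e) 2)
      _ = _ := by ring

theorem spread_bound {P : Finset E2} {δ Δ : ℝ} (hδ : 0 < δ) (hΔ : 1 ≤ Δ)
    (hsep : ∀ x ∈ P, ∀ y ∈ P, x ≠ y → δ ≤ dist x y)
    (hdiam : ∀ x ∈ P, ∀ y ∈ P, dist x y ≤ Δ * δ) :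
    (P.card : ℝ) ≤ 20 * ((low P).card + 1) * ((low P).card + 2) * Δ := by
  have h1 : 1 ≤ ⌊10 * Δ⌋₊ := by
    apply Nat.le_floor
    push_cast
    linarith
  have h2 := main_a P ⌊10 * Δ⌋₊ h1 (fun e he _ => Nat.le_floor
    (card_EC_sep P e hδ hΔ hsep hdiam (Ds_pos he)))
  have h3 : (⌊10 * Δ⌋₊ : ℝ) ≤ 10 * Δ := Nat.floor_le (by linarith)
  calc (P.card : ℝ) ≤ ((2 * ((low P).card + 1) * ((low P).card + 2) * ⌊10 * Δ⌋₊ : ℕ) : ℝ) := by
        exact_mod_cast h2
    _ = 2 * ((low P).card + 1) * ((low P).card + 2) * (⌊10 * Δ⌋₊ : ℝ) := by push_cast; ring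
    _ ≤ 2 * ((low P).card + 1) * ((low P).card + 2) * (10 * Δ) := by
        apply mul_le_mul_of_nonneg_left h3
        positivity
    _ = _ := by ring

end Pool.Agent.Helper77.CX
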