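import Pool.Agent.Helper85.LowMult.Basic

/-!
# A lemma of Vesztergombi type for large distances

If a finite plane set `Q` has at most `κ` different distances larger than `d > 0`, then the number of ordered
pairs at distance exactly `d` is at most `4 (κ + 2) |Q|`.
-/

set_option autoImplicit false
open scoped Classical

namespace Pool.Agent.Helper77.CX

open Pool.Agent.Helper85.LowMult

abbrev E2 := EuclideanSpace ℝ (Fin 2)

lemma dist_sq77 (x y : E2) : dist x y ^ 2 = (x 0 - y 0) ^ 2 + (x 1 - y 1) ^ 2 := by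
  rw [EuclideanSpace.dist_eq, Real.sq_sqrt (by positivity)]
  simp [Fin.sum_univ_two, Real.dist_eq, sq_abs]

lemma ext77 {x y : E2} (h0 : x 0 = y 0) (h1 : x 1 = y 1) : x = y := by
  ext i
  fin_cases i
  · exact h0
  · exact h1

/-- the half-open quadrants -/
noncomputable def quad (a b : ℝ) : Fin 4 :=
  if 0 < a ∧ 0 ≤ b then 0 else if a ≤ 0 ∧ 0 < b then 1 else if a < 0 ∧ b ≤ 0 then 2 else 3

lemma quad_cases (a b : ℝ) (h : 0 < a ^ 2 + b ^ 2) :
    (quad a b = 0 ∧ 0 < a ∧ 0 ≤ b) ∨ (quad a b = 1 ∧ a ≤ 0 ∧ 0 < b) ∨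
    (quad a b = 2 ∧ a < 0 ∧ b ≤ 0) ∨ (quad a b = 3 ∧ 0 ≤ a ∧ b < 0) := by
  unfold quad
  by_cases h1 : 0 < a ∧ 0 ≤ b
  · left
    exact ⟨if_pos h1, h1⟩
  rw [if_neg h1]
  by_cases h2 : a ≤ 0 ∧ 0 < b
  · right; left
    exact ⟨if_pos h2, h2⟩
  rw [if_neg h2]
  by_cases h3 : a < 0 ∧ b ≤ 0
  · right; right; left
    exact ⟨if_pos h3, h3⟩
  rw [if_neg h3]
  right; right; right
  refine ⟨rfl, ?_, ?_⟩
  · by_contra hcon
    push Not at hcon
    rcases le_or_gt b 0 with hb | hb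
    · exact h3 ⟨hcon, hb⟩
    · exact h2 ⟨hcon.le, hb⟩
  · by_contra hcon
    push Not at hcon
    rcases lt_trichotomy a 0 with ha | ha | ha
    · rcases hcon.lt_or_eq with hb | hb
      · exact h2 ⟨ha.le, hb⟩
      · exact h3 ⟨ha, hb ▸ le_refl _⟩
    · rcases hcon.lt_or_eq with hb | hb
      · exact h2 ⟨ha.le, hb⟩
      · rw [ha, ← hb] at h
        norm_num at h
    · exact h1 ⟨ha, hcon⟩

lemma quad_pos {a b a' b' : ℝ} (h : 0 < a ^ 2 + b ^ 2) (h' : 0 < a' ^ 2 + b' ^ 2)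
    (hq : quad a b = quad a' b') : 0 < a * a' + b * b' := by
  rcases quad_cases a b h with ⟨e, h1, h2⟩ | ⟨e, h1, h2⟩ | ⟨e, h1, h2⟩ | ⟨e, h1, h2⟩ <;>
  rcases quad_cases a' b' h' with ⟨e', h1', h2'⟩ | ⟨e', h1', h2'⟩ | ⟨e', h1', h2'⟩ | ⟨e', h1', h2'⟩ <;>
  first
  | (rw [e, e'] at hq; exact absurd hq (by decide))
  | skip
  · have := mul_pos h1 h1'
    have := mul_nonneg h2 h2'
    linarith
  · have := mul_nonneg_of_nonpos_of_nonpos h1 h1'
    have := mul_pos h2 h2'
    linarith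
  · have := mul_pos_of_neg_of_neg h1 h1'
    have := mul_nonneg_of_nonpos_of_nonpos h2 h2'
    linarith
  · have := mul_nonneg h1 h1'
    have := mul_pos_of_neg_of_neg h2 h2'
    linarith

/-- `a c` and `a' c'` are the scalar and cross products with a fixed vector -/
lemma mono77 {a c a' c' : ℝ} (ha : 0 < a) (ha' : 0 < a') (hc : c < 0) (hc' : c' < 0)
    (h : a ^ 2 + c ^ 2 = a' ^ 2 + c' ^ 2) (hx : a * c' - c * a' < 0) : a' < a ∧ c' < c := by
  have h1 : c' < c := by
    by_contra hcon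
    push Not at hcon
    have h2 : a ≤ a' := by
      by_contra h3
      push Not at h3
      nlinarith
    nlinarith
  refine ⟨?_, h1⟩
  by_contra hcon
  push Not at hcon
  nlinarith

lemma alg_pos {u1 u2 v1 v2 t1 t2 D : ℝ} (hD : 0 < D) (hu : u1 ^ 2 + u2 ^ 2 = D)
    (hv : v1 ^ 2 + v2 ^ 2 = D) (ht : t1 ^ 2 + t2 ^ 2 = D)
    (cuv : u1 * v2 - u2 * v1 < 0) (cut : u1 * t2 - u2 * t1 < 0) :
    0 < (u1 - v1) * (u1 - t1) + (u2 - v2) * (u2 - t2) := by
  have key : ∀ w1 w2 : ℝ, w1 ^ 2 + w2 ^ 2 = D → u1 * w2 - u2 * w1 < 0 → u1 * w1 + u2 * w2 < D := by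
    intro w1 w2 hw hc
    have h1 : (u1 * w1 + u2 * w2) ^ 2 + (u1 * w2 - u2 * w1) ^ 2 = D ^ 2 := by
      rw [sq D]
      nth_rewrite 1 [← hu]
      rw [← hw]
      ring
    by_contra hcon
    push Not at hcon
    nlinarith
  have h1 := key v1 v2 hv cuv
  have h2 := key t1 t2 ht cut
  have h3 : D * ((u1 - v1) * (u1 - t1) + (u2 - v2) * (u2 - t2)) =
      (D - (u1 * v1 + u2 * v2)) * (D - (u1 * t1 + u2 * t2)) +
        (u1 * v2 - u2 * v1) * (u1 * t2 - u2 * t1) := by
    subst hu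
    ring
  have h4 : 0 < (D - (u1 * v1 + u2 * v2)) * (D - (u1 * t1 + u2 * t2)) :=
    mul_pos (by linarith) (by linarith)
  have h5 := mul_pos_of_neg_of_neg cuv cut
  have h6 : 0 < D * ((u1 - v1) * (u1 - t1) + (u2 - v2) * (u2 - t2)) := by
    rw [h3]
    linarith
  exact (mul_pos_iff_of_pos_left hD).mp h6

lemma alg_inj {u1 u2 v1 v2 w1 w2 t1 t2 D : ℝ} (hD : 0 < D) (hu : u1 ^ 2 + u2 ^ 2 = D)
    (hv : v1 ^ 2 + v2 ^ 2 = D) (hw : w1 ^ 2 + w2 ^ 2 = D) (ht : t1 ^ 2 + t2 ^ 2 = D)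
    (iuv : 0 < u1 * v1 + u2 * v2) (iuw : 0 < u1 * w1 + u2 * w2)
    (cuv : u1 * v2 - u2 * v1 < 0) (cuw : u1 * w2 - u2 * w1 < 0) (cut : u1 * t2 - u2 * t1 < 0)
    (cvw : v1 * w2 - v2 * w1 < 0) :
    0 < (v1 - w1) * (u1 - t1) + (v2 - w2) * (u2 - t2) := by
  have h1 : (u1 * v1 + u2 * v2) ^ 2 + (u1 * v2 - u2 * v1) ^ 2 =
      (u1 * w1 + u2 * w2) ^ 2 + (u1 * w2 - u2 * w1) ^ 2 := by
    have e1 : (u1 * v1 + u2 * v2) ^ 2 + (u1 * v2 - u2 * v1) ^ 2 =
      (u1 ^ 2 + u2 ^ 2) * (v1 ^ 2 + v2 ^ 2) := by ring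
    have e2 : (u1 * w1 + u2 * w2) ^ 2 + (u1 * w2 - u2 * w1) ^ 2 =
      (u1 ^ 2 + u2 ^ 2) * (w1 ^ 2 + w2 ^ 2) := by ring
    rw [e1, e2, hv, hw]
  have h2 : (u1 * v1 + u2 * v2) * (u1 * w2 - u2 * w1) - (u1 * v2 - u2 * v1) * (u1 * w1 + u2 * w2)
      = (u1 ^ 2 + u2 ^ 2) * (v1 * w2 - v2 * w1) := by ring
  have h3 : (u1 * v1 + u2 * v2) * (u1 * w2 - u2 * w1) - (u1 * v2 - u2 * v1) * (u1 * w1 + u2 * w2)
      < 0 := by
    rw [h2, hu]
    exact mul_neg_of_pos_of_neg hD cvw
  obtain ⟨h4, h5⟩ := mono77 iuv iuw cuv cuw h1 h3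
  have h6 : u1 * t1 + u2 * t2 < D := by
    have h1 : (u1 * t1 + u2 * t2) ^ 2 + (u1 * t2 - u2 * t1) ^ 2 = D ^ 2 := by
      rw [sq D]
      nth_rewrite 1 [← hu]
      rw [← ht]
      ring
    by_contra hcon
    push Not at hcon
    nlinarith
  have h7 : D * ((v1 - w1) * (u1 - t1) + (v2 - w2) * (u2 - t2)) =
      ((u1 * v1 + u2 * v2) - (u1 * w1 + u2 * w2)) * (D - (u1 * t1 + u2 * t2)) +
        ((u1 * w2 - u2 * w1) - (u1 * v2 - u2 * v1)) * (u1 * t2 - u2 * t1) := by
    subst hu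
    ring
  have h8 : 0 < ((u1 * v1 + u2 * v2) - (u1 * w1 + u2 * w2)) * (D - (u1 * t1 + u2 * t2)) :=
    mul_pos (by linarith) (by linarith)
  have h9 : 0 < ((u1 * w2 - u2 * w1) - (u1 * v2 - u2 * v1)) * (u1 * t2 - u2 * t1) :=
    mul_pos_of_neg_of_neg (by linarith) cut
  have h10 : 0 < D * ((v1 - w1) * (u1 - t1) + (v2 - w2) * (u2 - t2)) := by
    rw [h7]
    linarith
  exact (mul_pos_iff_of_pos_left hD).mp h10

/-- same quadrant as `y`, seen from `x` -/
def SQ (x y y' : E2) : Prop :=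
  quad (y' 0 - x 0) (y' 1 - x 1) = quad (y 0 - x 0) (y 1 - x 1)

/-- cross product of `y - x` and `y' - x` -/
noncomputable def cr (x y y' : E2) : ℝ :=
  (y 0 - x 0) * (y' 1 - x 1) - (y 1 - x 1) * (y' 0 - x 0)

/-- the neighbours of `x` at distance `d` in the same quadrant as `y` and clockwise from `y` -/
noncomputable def U (Q : Finset E2) (d : ℝ) (x y : E2) : Finset E2 :=
  Q.filter (fun y' => dist x y' = d ∧ SQ x y y' ∧ cr x y y' < 0)

lemma eq77 {a b a' b' D : ℝ} (h : a ^ 2 + b ^ 2 = D) (h' : a' ^ 2 + b' ^ 2 = D)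
    (hc : a * b' - b * a' = 0) (hi : 0 < a * a' + b * b') : a = a' ∧ b = b' := by
  have hD : 0 ≤ D := by rw [← h]; positivity
  have h4 : (a * a' + b * b') ^ 2 = D ^ 2 := by
    have : (a * a' + b * b') ^ 2 + (a * b' - b * a') ^ 2 = (a ^ 2 + b ^ 2) * (a' ^ 2 + b' ^ 2) := by
      ring
    rw [hc, h, h'] at this
    linarith
  have h5 : a * a' + b * b' = D := (sq_eq_sq₀ hi.le hD).mp h4
  have h6 : (a - a') ^ 2 + (b - b') ^ 2 = 0 := by
    have e : (a - a') ^ 2 + (b - b') ^ 2 = (a ^ 2 + b ^ 2) + (a' ^ 2 + b' ^ 2)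
      - 2 * (a * a' + b * b') := by ring
    rw [e, h, h', h5]
    ring
  have h7 : (a - a') ^ 2 = 0 := le_antisymm (by linarith [sq_nonneg (b - b')]) (sq_nonneg _)
  have h8 : (b - b') ^ 2 = 0 := le_antisymm (by linarith [sq_nonneg (a - a')]) (sq_nonneg _)
  exact ⟨sub_eq_zero.mp (pow_eq_zero_iff (two_ne_zero) |>.mp h7),
    sub_eq_zero.mp (pow_eq_zero_iff (two_ne_zero) |>.mp h8)⟩

lemma mem_U {Q : Finset E2} {d : ℝ} {x y y' : E2} :
    y' ∈ U Q d x y ↔ y' ∈ Q ∧ dist x y' = d ∧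
      quad (y' 0 - x 0) (y' 1 - x 1) = quad (y 0 - x 0) (y 1 - x 1) ∧
      (y 0 - x 0) * (y' 1 - x 1) - (y 1 - x 1) * (y' 0 - x 0) < 0 := by
  rw [U, Finset.mem_filter]
  rfl

lemma vsq {x y : E2} {d : ℝ} (h : dist x y = d) :
    (y 0 - x 0) ^ 2 + (y 1 - x 1) ^ 2 = d ^ 2 := by
  rw [← h, dist_sq77]
  ring

lemma neg_quad77 {a b a' b' : ℝ} (h : 0 < a ^ 2 + b ^ 2) (h' : 0 < a' ^ 2 + b' ^ 2)
    (hq : quad a b = quad a' b') : quad (-a) (-b) = quad (-a') (-b') := by
  have hn : 0 < (-a) ^ 2 + (-b) ^ 2 := by simpa using h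
  have hn' : 0 < (-a') ^ 2 + (-b') ^ 2 := by simpa using h'
  rcases quad_cases a b h with ⟨e, h1, h2⟩ | ⟨e, h1, h2⟩ | ⟨e, h1, h2⟩ | ⟨e, h1, h2⟩ <;>
  rcases quad_cases a' b' h' with ⟨e', h1', h2'⟩ | ⟨e', h1', h2'⟩ | ⟨e', h1', h2'⟩ | ⟨e', h1', h2'⟩ <;>
  first
  | (rw [e, e'] at hq; exact absurd hq (by decide))
  | skip
  all_goals
    rcases quad_cases (-a) (-b) hn with ⟨e, k1, k2⟩ | ⟨e, k1, k2⟩ | ⟨e, k1, k2⟩ | ⟨e, k1, k2⟩ <;>
    rcases quad_cases (-a') (-b') hn' with ⟨e', k1', k2'⟩ | ⟨e', k1', k2'⟩ | ⟨e', k1', k2'⟩ | ⟨e', k1', k2'⟩ <;>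
    first
    | (exfalso; linarith)
    | (rw [e, e'])

/-- Claim 1 -/
lemma claim1 {Q : Finset E2} {d : ℝ} (hd : 0 < d) {κ : ℕ}
    (hκ : ((Q.offDiag.image (fun x => dist x.1 x.2)).filter (fun e => d < e)).card ≤ κ)
    {x y : E2} (hy : y ∈ Q) (hxy : dist x y = d) (hne : (U Q d y x).Nonempty) :
    (U Q d x y).card ≤ κ := by
  obtain ⟨x', hx'⟩ := hne
  rw [mem_U] at hx'
  obtain ⟨hx'Q, hx'd, hx'q, hx'c⟩ := hx'
  have hyx : dist y x = d := by rw [dist_comm]; exact hxy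
  have hD : 0 < d ^ 2 := by positivity
  -- u = y - x, t = y - x'
  have hu := vsq hxy
  have ht0 := vsq hx'd
  have ht : (y 0 - x' 0) ^ 2 + (y 1 - x' 1) ^ 2 = d ^ 2 := by rw [← ht0]; ring
  have cut : (y 0 - x 0) * (y 1 - x' 1) - (y 1 - x 1) * (y 0 - x' 0) < 0 := by
    have e : (y 0 - x 0) * (y 1 - x' 1) - (y 1 - x 1) * (y 0 - x' 0) =
      (x 0 - y 0) * (x' 1 - y 1) - (x 1 - y 1) * (x' 0 - y 0) := by ring
    rw [e]
    exact hx'c
  -- distances from x'
  have hval : ∀ y', dist x y' = d → dist x' y' ^ 2 - d ^ 2 =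
      2 * (((y 0 - x 0) - (y' 0 - x 0)) * ((y 0 - x 0) - (y 0 - x' 0)) +
        ((y 1 - x 1) - (y' 1 - x 1)) * ((y 1 - x 1) - (y 1 - x' 1))) := by
    intro y' hy'
    have hv := vsq hy'
    rw [dist_sq77]
    linear_combination hv + ht - hu
  have hgt : ∀ y' ∈ U Q d x y, d < dist x' y' := by
    intro y' hy'
    rw [mem_U] at hy'
    obtain ⟨-, hy'd, -, hy'c⟩ := hy'
    have h1 := alg_pos hD hu (vsq hy'd) ht hy'c cut
    have h2 := hval y' hy'd
    have h3 : d ^ 2 < dist x' y' ^ 2 := by linarith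
    exact lt_of_pow_lt_pow_left₀ 2 dist_nonneg h3
  have hinj : Set.InjOn (fun y' => dist x' y') (U Q d x y : Set E2) := by
    have key : ∀ y' ∈ U Q d x y, ∀ y'' ∈ U Q d x y, dist x' y' = dist x' y'' →
        ¬ cr x y' y'' < 0 := by
      intro y' hy' y'' hy'' he hc
      rw [mem_U] at hy' hy''
      simp only [cr] at hc
      obtain ⟨-, hy'd, hy'q, hy'c⟩ := hy'
      obtain ⟨-, hy''d, hy''q, hy''c⟩ := hy''
      have hv := vsq hy'd
      have hw := vsq hy''d
      have i1 := quad_pos (by rw [hu]; exact hD) (by rw [hv]; exact hD) hy'q.symm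
      have i2 := quad_pos (by rw [hu]; exact hD) (by rw [hw]; exact hD) hy''q.symm
      have h1 := alg_inj hD hu hv hw ht i1 i2 hy'c hy''c cut hc
      have h2 := hval y' hy'd
      have h3 := hval y'' hy''d
      rw [he] at h2
      linarith
    intro y' hy' y'' hy'' he
    have h1 := key y' hy' y'' hy'' he
    have h2 := key y'' hy'' y' hy' he.symm
    rw [Finset.mem_coe, mem_U] at hy' hy''
    obtain ⟨-, hy'd, hy'q, hy'c⟩ := hy'
    obtain ⟨-, hy''d, hy''q, hy''c⟩ := hy''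
    have hv := vsq hy'd
    have hw := vsq hy''d
    have i3 := quad_pos (by rw [hv]; exact hD) (by rw [hw]; exact hD) (hy'q.trans hy''q.symm)
    simp only [cr] at h1 h2
    push Not at h1 h2
    have h3 : (y' 0 - x 0) * (y'' 1 - x 1) - (y' 1 - x 1) * (y'' 0 - x 0) = 0 := by
      apply le_antisymm _ h1
      linarith
    obtain ⟨e1, e2⟩ := eq77 hv hw h3 i3
    exact ext77 (by linarith) (by linarith)
  refine le_trans ?_ hκ
  apply Finset.card_le_card_of_injOn (fun y' => dist x' y') ?_ hinj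
  intro y' hy'
  have hg := hgt y' hy'
  simp only [Finset.coe_filter, Finset.mem_image, Set.mem_setOf_eq]
  refine ⟨⟨(x', y'), ?_, rfl⟩, hg⟩
  rw [Finset.mem_offDiag]
  refine ⟨hx'Q, (Finset.mem_filter.mp hy').1, ?_⟩
  intro h
  simp only at h
  rw [h, dist_self] at hg
  linarith

/-- the most counterclockwise point -/
lemma exists_ccw {x : E2} {d : ℝ} (hd : 0 < d) (q : Fin 4) (T : Finset E2) (hT : T.Nonempty)
    (h : ∀ y ∈ T, dist x y = d ∧ quad (y 0 - x 0) (y 1 - x 1) = q) :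
    ∃ y ∈ T, ∀ y' ∈ T, y' ≠ y → cr x y y' < 0 := by
  have hD : 0 < d ^ 2 := by positivity
  have hpos : ∀ y ∈ T, ∀ y' ∈ T,
      0 < (y 0 - x 0) * (y' 0 - x 0) + (y 1 - x 1) * (y' 1 - x 1) := by
    intro y hy y' hy'
    exact quad_pos (by rw [vsq (h y hy).1]; exact hD) (by rw [vsq (h y' hy').1]; exact hD)
      ((h y hy).2.trans (h y' hy').2.symm)
  induction T using Finset.induction_on with
  | empty => exact absurd hT (by simp)
  | insert a T ha ih =>
    by_cases hTe : T.Nonempty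
    · obtain ⟨y, hy, hy2⟩ := ih hTe (fun z hz => h z (Finset.mem_insert_of_mem hz))
        (fun z hz z' hz' => hpos z (Finset.mem_insert_of_mem hz) z' (Finset.mem_insert_of_mem hz'))
      rcases lt_trichotomy (cr x y a) 0 with hc | hc | hc
      · refine ⟨y, Finset.mem_insert_of_mem hy, ?_⟩
        intro y' hy' hne
        rcases Finset.mem_insert.mp hy' with rfl | hy'
        · exact hc
        · exact hy2 y' hy' hne
      · exfalso
        apply ha
        have h1 := vsq (h a (Finset.mem_insert_self _ _)).1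
        have h2 := vsq (h y (Finset.mem_insert_of_mem hy)).1
        have h3 := hpos y (Finset.mem_insert_of_mem hy) a (Finset.mem_insert_self _ _)
        simp only [cr] at hc
        have : a = y := by
          obtain ⟨e1, e2⟩ := eq77 h2 h1 hc h3
          exact ext77 (by linarith) (by linarith)
        rw [this]
        exact hy
      · refine ⟨a, Finset.mem_insert_self _ _, ?_⟩
        intro y' hy' hne
        rcases Finset.mem_insert.mp hy' with rfl | hy'
        · exact absurd rfl hne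
        · have hay : cr x a y < 0 := by
            have e : cr x a y = - cr x y a := by simp only [cr]; ring
            rw [e]; linarith
          by_cases hyy : y' = y
          · rw [hyy]; exact hay
          have h1 := hy2 y' hy' hyy
          have h2 := hpos a (Finset.mem_insert_self _ _) y (Finset.mem_insert_of_mem hy)
          have h3 := hpos y (Finset.mem_insert_of_mem hy) y' (Finset.mem_insert_of_mem hy')
          have h4 := vsq (h y (Finset.mem_insert_of_mem hy)).1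
          simp only [cr] at hay h1 ⊢
          set p := a 0 - x 0
          set q := a 1 - x 1
          set p' := y 0 - x 0
          set q' := y 1 - x 1
          set p'' := y' 0 - x 0
          set q'' := y' 1 - x 1
          have e : (p * p' + q * q') * (p' * q'' - q' * p'') + (p' * p'' + q' * q'') * (p * q' - q * p')
            = (p' ^ 2 + q' ^ 2) * (p * q'' - q * p'') := by ring
          rw [h4] at e
          have h5 := mul_neg_of_pos_of_neg h2 h1
          have h6 := mul_neg_of_pos_of_neg h3 hay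
          have h7 : d ^ 2 * (p * q'' - q * p'') < 0 := by rw [← e]; linarith
          by_contra hcon
          push Not at hcon
          have := mul_nonneg hD.le hcon
          linarith
    · rw [Finset.not_nonempty_iff_eq_empty] at hTe
      subst hTe
      refine ⟨a, Finset.mem_insert_self _ _, ?_⟩
      intro y' hy' hne
      simp at hy'
      exact absurd hy' hne

/-- Claim 2 -/
lemma claim2 (Q : Finset E2) {d : ℝ} (hd : 0 < d) (κ : ℕ) (x : E2) :
    (Q.filter (fun y => dist x y = d ∧ (U Q d x y).card ≤ κ)).card ≤ 4 * (κ + 1) := by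
  set S := Q.filter (fun y => dist x y = d ∧ (U Q d x y).card ≤ κ) with hS
  have h1 : ∀ q : Fin 4, (S.filter (fun y => quad (y 0 - x 0) (y 1 - x 1) = q)).card ≤ κ + 1 := by
    intro q
    by_contra hcon
    push Not at hcon
    set T := S.filter (fun y => quad (y 0 - x 0) (y 1 - x 1) = q) with hT
    have hTne : T.Nonempty := by
      rw [← Finset.card_pos]; omega
    obtain ⟨y, hy, hy2⟩ := exists_ccw (x := x) hd q T hTne (by
      intro y hy
      rw [hT, Finset.mem_filter, hS, Finset.mem_filter] at hy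
      exact ⟨hy.1.2.1, hy.2⟩)
    have hy' := hy
    rw [hT, Finset.mem_filter, hS, Finset.mem_filter] at hy'
    have h2 : T.erase y ⊆ U Q d x y := by
      intro z hz
      rw [Finset.mem_erase] at hz
      have hz3 := hy2 z hz.2 hz.1
      have hz2 := hz.2
      rw [hT, Finset.mem_filter, hS, Finset.mem_filter] at hz2
      rw [mem_U]
      exact ⟨hz2.1.1, hz2.1.2.1, hz2.2.trans hy'.2.symm, hz3⟩
    have h3 := Finset.card_le_card h2
    rw [Finset.card_erase_of_mem hy] at h3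
    have h4 := hy'.1.2.2
    omega
  have h2 : S.card = ∑ q : Fin 4, (S.filter (fun y => quad (y 0 - x 0) (y 1 - x 1) = q)).card :=
    Finset.card_eq_sum_card_fiberwise (fun y _ => Finset.mem_univ _)
  rw [h2]
  calc ∑ q : Fin 4, (S.filter (fun y => quad (y 0 - x 0) (y 1 - x 1) = q)).card
      ≤ ∑ _q : Fin 4, (κ + 1) := Finset.sum_le_sum (fun q _ => h1 q)
    _ = 4 * (κ + 1) := by simp

/-- **Vesztergombi type lemma** -/
theorem vest (Q : Finset E2) {d : ℝ} (hd : 0 < d) {κ : ℕ}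
    (hκ : ((Q.offDiag.image (fun x => dist x.1 x.2)).filter (fun e => d < e)).card ≤ κ) :
    (pairs Q d).card ≤ 4 * (κ + 2) * Q.card := by
  have h1 : pairs Q d ⊆
      (Q ×ˢ Q).filter (fun p => dist p.1 p.2 = d ∧ (U Q d p.1 p.2).card ≤ κ) ∪
      (Q ×ˢ Q).filter (fun p => dist p.2 p.1 = d ∧ (U Q d p.2 p.1).card ≤ 0) := by
    rintro ⟨x, y⟩ hp
    simp only [pairs, Finset.mem_filter, Finset.mem_offDiag] at hp
    obtain ⟨⟨hx, hy, hne⟩, hdist⟩ := hp
    rw [Finset.mem_union, Finset.mem_filter, Finset.mem_filter, Finset.mem_product]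
    by_cases hU : (U Q d y x).Nonempty
    · left
      exact ⟨⟨hx, hy⟩, hdist, claim1 hd hκ hy hdist hU⟩
    · right
      rw [Finset.not_nonempty_iff_eq_empty] at hU
      refine ⟨⟨hx, hy⟩, ?_, ?_⟩
      · simp only
        rw [dist_comm]
        exact hdist
      · simp only
        rw [hU]
        simp
  have h2 : ((Q ×ˢ Q).filter (fun p => dist p.1 p.2 = d ∧ (U Q d p.1 p.2).card ≤ κ)).card ≤
      (4 * (κ + 1)) * Q.card := by
    have : ((Q ×ˢ Q).filter (fun p => dist p.1 p.2 = d ∧ (U Q d p.1 p.2).card ≤ κ)).card ≤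
        (4 * (κ + 1)) * (Q).card := by
      apply Finset.card_le_mul_card_image_of_maps_to (f := fun p : E2 × E2 => p.1)
      · intro p hp
        rw [Finset.mem_filter, Finset.mem_product] at hp
        exact hp.1.1
      · intro x _
        refine le_trans ?_ (claim2 Q hd κ x)
        apply Finset.card_le_card_of_injOn (fun p : E2 × E2 => p.2)
        · intro p hp
          simp only [Finset.coe_filter, Finset.mem_filter, Finset.mem_product,
            Set.mem_setOf_eq] at hp ⊢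
          obtain ⟨⟨⟨h1, h2⟩, h3, h4⟩, h5⟩ := hp
          rw [h5] at h3 h4
          exact ⟨h2, h3, h4⟩
        · intro p hp p' hp' he
          simp only [Finset.coe_filter, Finset.mem_filter, Set.mem_setOf_eq] at hp hp'
          exact Prod.ext (hp.2.trans hp'.2.symm) he
    exact this
  have h3 : ((Q ×ˢ Q).filter (fun p => dist p.2 p.1 = d ∧ (U Q d p.2 p.1).card ≤ 0)).card ≤
      4 * Q.card := by
    have : ((Q ×ˢ Q).filter (fun p => dist p.2 p.1 = d ∧ (U Q d p.2 p.1).card ≤ 0)).card ≤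
        4 * (Q).card := by
      apply Finset.card_le_mul_card_image_of_maps_to (f := fun p : E2 × E2 => p.2)
      · intro p hp
        rw [Finset.mem_filter, Finset.mem_product] at hp
        exact hp.1.2
      · intro y _
        refine le_trans ?_ (claim2 Q hd 0 y)
        apply Finset.card_le_card_of_injOn (fun p : E2 × E2 => p.1)
        · intro p hp
          simp only [Finset.coe_filter, Finset.mem_filter, Finset.mem_product,
            Set.mem_setOf_eq] at hp ⊢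
          obtain ⟨⟨⟨h1, h2⟩, h3, h4⟩, h5⟩ := hp
          rw [h5] at h3 h4
          exact ⟨h1, h3, h4⟩
        · intro p hp p' hp' he
          simp only [Finset.coe_filter, Finset.mem_filter, Set.mem_setOf_eq] at hp hp'
          exact Prod.ext he (hp.2.trans hp'.2.symm)
    exact this
  calc (pairs Q d).card ≤ _ := Finset.card_le_card h1
    _ ≤ _ := Finset.card_union_le _ _
    _ ≤ (4 * (κ + 1)) * Q.card + 4 * Q.card := Nat.add_le_add h2 h3
    _ = 4 * (κ + 2) * Q.card := by ring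

end Pool.Agent.Helper77.CX
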